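import Mathlib
import Pool.Agent.Results.MP_8b8716_co.ThreeValue

/-!
Unit-distance graphs over real algebraic fields: places with a small residue field.
-/

set_option autoImplicit false

namespace Pool.Agent.H923_Alg

open Pool.Agent.Results.MP_8b8716_co.ThreeValue IsLocalRing

section Core

lemma inv_mem_of_residue {K : Type*} [Field K] (W : ValuationSubring K) (c : W)
    (hc : residue W c ≠ 0) {x : K} (hx : x * (c : K) = 1) : x ∈ W := by
  obtain ⟨e, he⟩ := (residue_ne_zero_iff_isUnit c).mp hc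
  have h1 : (c : K) * ((e⁻¹ : Wˣ) : W) = 1 := by
    have h : c * ((e⁻¹ : Wˣ) : W) = 1 := by rw [← he]; exact e.mul_inv
    have := congrArg (fun z : W => (z : K)) h
    simpa using this
  have h2 : x = (((e⁻¹ : Wˣ) : W) : K) := by
    calc x = x * ((c : K) * ((e⁻¹ : Wˣ) : W)) := by rw [h1, mul_one]
      _ = (x * (c : K)) * ((e⁻¹ : Wˣ) : W) := by ring
      _ = _ := by rw [hx, one_mul]
  rw [h2]
  exact ((e⁻¹ : Wˣ) : W).2

lemma mem_of_sq_mem {K : Type*} [Field K] (W : ValuationSubring K) {z : K} (h : z * z ∈ W) : z ∈ W := by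
  refine mem_of_quad W (zero_mem _) (neg_mem h) ?_
  ring

lemma mem_of_form {K : Type*} [Field K] (W : ValuationSubring K) (a b : W)
    (hirr : ∀ t : ResidueField W, t ^ 2 + residue W a * t + residue W b ≠ 0)
    {u v : K} (h : u ^ 2 + (a : K) * u * v + (b : K) * v ^ 2 = 1) : u ∈ W ∧ v ∈ W := by
  by_cases hv : v = 0
  · subst hv
    refine ⟨?_, zero_mem _⟩
    apply mem_of_sq_mem
    have : u * u = 1 := by linear_combination h
    rw [this]; exact one_mem _
  by_cases hu : u = 0
  · subst hu
    refine ⟨zero_mem _, ?_⟩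
    apply mem_of_sq_mem
    refine inv_mem_of_residue W b ?_ (by linear_combination h)
    have := hirr 0
    simpa using this
  by_cases ht : u / v ∈ W
  · have hvW : v ∈ W := by
      apply mem_of_sq_mem
      let t : W := ⟨u / v, ht⟩
      refine inv_mem_of_residue W (t ^ 2 + a * t + b) ?_ ?_
      · have := hirr (residue W t)
        simpa using this
      · push_cast
        show v * v * ((u / v) ^ 2 + (a : K) * (u / v) + b) = 1
        field_simp
        linear_combination h
    refine ⟨?_, hvW⟩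
    have : u = u / v * v := by field_simp
    rw [this]; exact mul_mem ht hvW
  · have ht' : v / u ∈ W := by
      have := (W.mem_or_inv_mem (u / v)).resolve_left ht
      rwa [inv_div] at this
    let t : W := ⟨v / u, ht'⟩
    have htr : residue W t = 0 := by
      by_contra hne
      exact ht (inv_mem_of_residue W t hne (by
        show u / v * (v / u) = 1
        field_simp))
    have huW : u ∈ W := by
      apply mem_of_sq_mem
      refine inv_mem_of_residue W (1 + a * t + b * t ^ 2) ?_ ?_
      · simp [htr]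
      · push_cast
        show u * u * (1 + (a : K) * (v / u) + b * (v / u) ^ 2) = 1
        field_simp
        linear_combination h
    refine ⟨huW, ?_⟩
    have : v = v / u * u := by field_simp
    rw [this]; exact mul_mem ht' huW

lemma colorable_of_residue (F : IntermediateField ℚ ℝ) (W : ValuationSubring F) (a b : W)
    (hab : a ^ 2 + 1 = 4 * b)
    (hirr : ∀ t : ResidueField W, t ^ 2 + residue W a * t + residue W b ≠ 0)
    {α : Type*} [Fintype α] (c : ResidueField W → ResidueField W → α)
    (hc : ∀ u v u' v' : ResidueField W,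
      (u - u') ^ 2 + residue W a * (u - u') * (v - v') + residue W b * (v - v') ^ 2 = 1 →
        c u v ≠ c u' v') :
    (unitDistGraph F).Colorable (Fintype.card α) := by
  classical
  let WA : AddSubgroup F := W.toSubring.toAddSubgroup
  have hWA : ∀ x, x ∈ WA ↔ x ∈ W := fun x => Iff.rfl
  let rep : F → F := fun x => Quotient.out (QuotientAddGroup.mk x : F ⧸ WA)
  have hrep : ∀ x, x - rep x ∈ W := by
    intro x
    have h : (QuotientAddGroup.mk (rep x) : F ⧸ WA) = QuotientAddGroup.mk x := Quotient.out_eq _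
    have h' := QuotientAddGroup.eq.mp h
    rw [hWA] at h'
    have e : x - rep x = -rep x + x := by ring
    rw [e]; exact h'
  have hrepeq : ∀ x x', x - x' ∈ W → rep x = rep x' := by
    intro x x' hx
    have : (QuotientAddGroup.mk x : F ⧸ WA) = QuotientAddGroup.mk x' := by
      rw [QuotientAddGroup.eq, hWA]
      have e : -x + x' = -(x - x') := by ring
      rw [e]; exact neg_mem hx
    simp only [rep, this]
  let ρ : F → ResidueField W := fun x => residue W ⟨x - rep x, hrep x⟩
  have hρ : ∀ x x' (h : x - x' ∈ W), ρ x - ρ x' = residue W ⟨x - x', h⟩ := by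
    intro x x' h
    have e := hrepeq x x' h
    simp only [ρ]
    rw [← map_sub]
    congr 1
    apply Subtype.ext
    show (x - rep x) - (x' - rep x') = x - x'
    rw [e]; ring
  have habF : ((a : F)) ^ 2 + 1 = 4 * (b : F) := by
    exact congrArg (fun z : W => (z : F)) hab
  refine (SimpleGraph.Coloring.mk
    (fun p : F × F => c (ρ (p.1 - (a : F) * p.2)) (ρ (2 * p.2))) ?_).colorable
  intro p q hpq
  have hadj : (p.1 - q.1) ^ 2 + (p.2 - q.2) ^ 2 = 1 := hpq
  have hform : ((p.1 - (a : F) * p.2) - (q.1 - (a : F) * q.2)) ^ 2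
      + (a : F) * ((p.1 - (a : F) * p.2) - (q.1 - (a : F) * q.2)) * (2 * p.2 - 2 * q.2)
      + (b : F) * (2 * p.2 - 2 * q.2) ^ 2 = 1 := by
    linear_combination hadj - (p.2 - q.2) ^ 2 * habF
  obtain ⟨hu, hv⟩ := mem_of_form W a b hirr hform
  apply hc
  rw [hρ _ _ hu, hρ _ _ hv]
  rw [← map_pow, ← map_mul, ← map_mul, ← map_pow, ← map_mul, ← map_add, ← map_add, ← map_one (residue W)]
  congr 1
  apply Subtype.ext
  push_cast
  exact hform

end Core

section Two

lemma four_of_trace {κ : Type*} [Field κ] (h2 : (2 : κ) = 0) (β s : κ) (T : κ → κ)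
    (hTsub : ∀ x y, T (x - y) = T x - T y) (hT2 : ∀ x, T x ^ 2 = T x)
    (hT : ∀ u v, T u = 0 → T v = 0 → u ^ 2 + u * v + (β + s ^ 2 + s) * v ^ 2 ≠ 1) :
    ∃ c : κ → κ → Bool × Bool, ∀ u v u' v' : κ,
      (u - u') ^ 2 + (u - u') * (v - v') + β * (v - v') ^ 2 = 1 → c u v ≠ c u' v' := by
  classical
  have h01 : ∀ x, T x = 0 ∨ T x = 1 := by
    intro x
    have h : T x * (T x - 1) = 0 := by linear_combination hT2 x
    rcases mul_eq_zero.mp h with h | h
    · exact Or.inl h
    · exact Or.inr (sub_eq_zero.mp h)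
  have key : ∀ x y, (decide (T x = 0)) = (decide (T y = 0)) → T (x - y) = 0 := by
    intro x y h
    rw [hTsub]
    rcases h01 x with hx | hx <;> rcases h01 y with hy | hy <;> simp [hx, hy] at h ⊢
  refine ⟨fun u v => (decide (T (u + s * v) = 0), decide (T v = 0)), ?_⟩
  intro u v u' v' h heq
  rw [Prod.mk.injEq] at heq
  obtain ⟨e1, e2⟩ := heq
  have t1 := key _ _ e1
  have t2 := key _ _ e2
  apply hT _ _ t1 t2
  linear_combination h + ((u - u') * s * (v - v') + s ^ 2 * (v - v') ^ 2 + s * (v - v') ^ 2) * h2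

lemma exists_ne_zero_one {κ : Type*} [Field κ] [Fintype κ] (h : 2 < Fintype.card κ) :
    ∃ t : κ, t ≠ 0 ∧ t ≠ 1 := by
  classical
  have h1 : ({0, 1} : Finset κ).card < (Finset.univ : Finset κ).card := by
    rw [Finset.card_univ]
    exact lt_of_le_of_lt Finset.card_le_two h
  obtain ⟨t, -, ht⟩ := Finset.exists_mem_notMem_of_card_lt_card h1
  simp only [Finset.mem_insert, Finset.mem_singleton, not_or] at ht
  exact ⟨t, ht⟩

lemma eq_of_sq {κ : Type*} [Field κ] (h2 : (2 : κ) = 0) {x y : κ} (h : x ^ 2 = y ^ 2) : x = y := by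
  have h1 : (x - y) ^ 2 = 0 := by linear_combination h + (y ^ 2 - x * y) * h2
  exact sub_eq_zero.mp (pow_eq_zero_iff (two_ne_zero)|>.mp h1)

lemma four_card_two {κ : Type*} [Field κ] [Fintype κ] (hq : Fintype.card κ = 2) (h2 : (2 : κ) = 0)
    (β : κ) (_hirr : ∀ t : κ, t ^ 2 + t + β ≠ 0) :
    ∃ c : κ → κ → Bool × Bool, ∀ u v u' v' : κ,
      (u - u') ^ 2 + (u - u') * (v - v') + β * (v - v') ^ 2 = 1 → c u v ≠ c u' v' := by
  have hx : ∀ x : κ, x ^ 2 = x := by
    intro x
    have := FiniteField.pow_card x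
    rwa [hq] at this
  refine four_of_trace h2 β 0 (fun x => x) (fun x y => rfl) hx ?_
  intro u v hu hv
  change u = 0 at hu
  change v = 0 at hv
  rw [hu, hv]
  simp

lemma four_card_four {κ : Type*} [Field κ] [Fintype κ] (hq : Fintype.card κ = 4) (h2 : (2 : κ) = 0)
    (β : κ) (hirr : ∀ t : κ, t ^ 2 + t + β ≠ 0) :
    ∃ c : κ → κ → Bool × Bool, ∀ u v u' v' : κ,
      (u - u') ^ 2 + (u - u') * (v - v') + β * (v - v') ^ 2 = 1 → c u v ≠ c u' v' := by
  have hx : ∀ x : κ, x ^ 4 = x := by
    intro x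
    have := FiniteField.pow_card x
    rwa [hq] at this
  have hβ0 : β ≠ 0 := by
    intro h
    exact hirr 0 (by rw [h]; ring)
  have hβ1 : β ≠ 1 := by
    intro h
    obtain ⟨t, ht0, ht1⟩ := exists_ne_zero_one (κ := κ) (by rw [hq]; norm_num)
    have h3 : t * ((t - 1) * (t ^ 2 + t + 1)) = 0 := by linear_combination hx t
    rcases mul_eq_zero.mp h3 with h | h3
    · exact ht0 h
    rcases mul_eq_zero.mp h3 with h4 | h4
    · exact ht1 (sub_eq_zero.mp h4)
    · exact hirr t (by rw [h]; exact h4)
  have hβ : β ^ 2 + β + 1 = 0 := by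
    have h3 : β * ((β - 1) * (β ^ 2 + β + 1)) = 0 := by linear_combination hx β
    rcases mul_eq_zero.mp h3 with h | h3
    · exact absurd h hβ0
    rcases mul_eq_zero.mp h3 with h4 | h4
    · exact absurd (sub_eq_zero.mp h4) hβ1
    · exact h4
  refine four_of_trace h2 β 0 (fun x => β * x + β ^ 2 * x ^ 2) ?_ ?_ ?_
  · intro x y
    show β * (x - y) + β ^ 2 * (x - y) ^ 2 = (β * x + β ^ 2 * x ^ 2) - (β * y + β ^ 2 * y ^ 2)
    linear_combination (β ^ 2 * (y ^ 2 - x * y)) * h2
  · intro x
    show (β * x + β ^ 2 * x ^ 2) ^ 2 = β * x + β ^ 2 * x ^ 2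
    linear_combination β ^ 4 * hx x + x * hx β + β ^ 3 * x ^ 3 * h2
  · intro u v hu hv h
    have hu' : β * u * (β * u + 1) = 0 := by linear_combination hu
    have hv' : β * v * (β * v + 1) = 0 := by linear_combination hv
    have h' : (β * u) ^ 2 + (β * u) * (β * v) + β * (β * v) ^ 2 = β ^ 2 := by
      linear_combination β ^ 2 * h
    have hone : (1 : κ) ≠ 0 := one_ne_zero
    rcases mul_eq_zero.mp hu' with hp | hp <;> rcases mul_eq_zero.mp hv' with hq | hq
    · rw [hp, hq] at h'
      apply hβ0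
      exact pow_eq_zero_iff (two_ne_zero) |>.mp (by linear_combination (-1) * h')
    · have hq' : β * v = -1 := by linear_combination hq
      rw [hp, hq'] at h'
      apply hone
      linear_combination hβ + h' - β * h2
    · have hp' : β * u = -1 := by linear_combination hp
      rw [hp', hq] at h'
      apply hβ0
      linear_combination hβ + h' - h2
    · have hp' : β * u = -1 := by linear_combination hp
      have hq' : β * v = -1 := by linear_combination hq
      rw [hp', hq'] at h'
      apply hone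
      linear_combination hβ + h' - (β + 1) * h2

lemma four_card_eight {κ : Type*} [Field κ] [Fintype κ] (hq : Fintype.card κ = 8) (h2 : (2 : κ) = 0)
    (β : κ) (hirr : ∀ t : κ, t ^ 2 + t + β ≠ 0) :
    ∃ c : κ → κ → Bool × Bool, ∀ u v u' v' : κ,
      (u - u') ^ 2 + (u - u') * (v - v') + β * (v - v') ^ 2 = 1 → c u v ≠ c u' v' := by
  have hx : ∀ x : κ, x ^ 8 = x := by
    intro x
    have := FiniteField.pow_card x
    rwa [hq] at this
  have hone : (1 : κ) ≠ 0 := one_ne_zero
  obtain ⟨r, hr⟩ : ∃ r : κ, r ^ 3 + r ^ 2 + 1 = 0 := by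
    obtain ⟨t, ht0, ht1⟩ := exists_ne_zero_one (κ := κ) (by rw [hq]; norm_num)
    have h3 : t * ((t - 1) * ((t ^ 3 + t ^ 2 + 1) * (t ^ 3 + t + 1))) = 0 := by
      linear_combination hx t + (t * (t - 1) * t ^ 3) * h2
    rcases mul_eq_zero.mp h3 with h | h3
    · exact absurd h ht0
    rcases mul_eq_zero.mp h3 with h4 | h4
    · exact absurd (sub_eq_zero.mp h4) ht1
    rcases mul_eq_zero.mp h4 with h5 | h5
    · exact ⟨t, h5⟩
    · exact ⟨t + 1, by linear_combination h5 + (2 * t ^ 2 + 2 * t + 1) * h2⟩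
  obtain ⟨s, hs⟩ : ∃ s : κ, s ^ 2 + s = β + 1 := by
    have hT : β ^ 4 + β ^ 2 + β = 1 := by
      have h3 : (β ^ 4 + β ^ 2 + β) * (β ^ 4 + β ^ 2 + β - 1) = 0 := by
        linear_combination hx β + (β ^ 6 + β ^ 5 + β ^ 3) * h2
      rcases mul_eq_zero.mp h3 with h | h
      · exfalso
        apply hirr (β + β ^ 4)
        linear_combination hx β + h + (β ^ 5 + β) * h2
      · exact sub_eq_zero.mp h
    refine ⟨(β + 1) + (β + 1) ^ 4, ?_⟩
    have h4 : (β + 1) ^ 4 = β ^ 4 + 1 := by linear_combination (2 * β ^ 3 + 3 * β ^ 2 + 2 * β) * h2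
    rw [h4]
    linear_combination hx β + hT + (β ^ 5 + 2 * β ^ 4 + 2 * β + 3) * h2
  have habs : r ^ 3 + r + 1 ≠ 0 := by
    intro h
    have h3 : r * (r - 1) = 0 := by linear_combination hr - h
    rcases mul_eq_zero.mp h3 with h4 | h4
    · rw [h4] at hr; apply hone; linear_combination hr
    · have : r = 1 := sub_eq_zero.mp h4
      rw [this] at hr; apply hone; linear_combination hr - h2
  have hr0 : r ≠ 0 := by
    intro h
    rw [h] at hr; apply hone; linear_combination hr
  refine four_of_trace h2 β s (fun x => (r * x) ^ 4 + (r * x) ^ 2 + r * x) ?_ ?_ ?_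
  · intro x y
    show (r * (x - y)) ^ 4 + (r * (x - y)) ^ 2 + r * (x - y)
      = ((r * x) ^ 4 + (r * x) ^ 2 + r * x) - ((r * y) ^ 4 + (r * y) ^ 2 + r * y)
    linear_combination (r ^ 4 * (-2 * x ^ 3 * y + 3 * x ^ 2 * y ^ 2 - 2 * x * y ^ 3 + y ^ 4)
      + r ^ 2 * (y ^ 2 - x * y)) * h2
  · intro x
    show ((r * x) ^ 4 + (r * x) ^ 2 + r * x) ^ 2 = (r * x) ^ 4 + (r * x) ^ 2 + r * x
    linear_combination hx (r * x) + ((r * x) ^ 6 + (r * x) ^ 5 + (r * x) ^ 3) * h2
  · intro u v hu hv h
    set S := r * u with hS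
    set t := r * v with ht
    have h' : S ^ 2 + S * t + t ^ 2 = r ^ 2 := by
      rw [hS, ht]
      linear_combination r ^ 2 * h - r ^ 2 * v ^ 2 * hs - r ^ 2 * v ^ 2 * β * h2
    have hu' : S * (S ^ 3 + S + 1) = 0 := by linear_combination hu
    have hv' : t * (t ^ 3 + t + 1) = 0 := by linear_combination hv
    rcases mul_eq_zero.mp hu' with hp | hp <;> rcases mul_eq_zero.mp hv' with hq | hq
    · rw [hp, hq] at h'
      apply hr0
      exact pow_eq_zero_iff (two_ne_zero) |>.mp (by linear_combination (-1) * h')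
    · rw [hp] at h'
      have : t = r := eq_of_sq h2 (by linear_combination h')
      exact habs (this ▸ hq)
    · rw [hq] at h'
      have : S = r := eq_of_sq h2 (by linear_combination h')
      exact habs (this ▸ hp)
    · have h3 : (S - t) * (S ^ 2 + S * t + t ^ 2 + 1) = 0 := by linear_combination hp - hq
      rcases mul_eq_zero.mp h3 with h4 | h4
      · have e : S = t := sub_eq_zero.mp h4
        have : S = r := eq_of_sq h2 (by rw [← e] at h'; linear_combination h' - S ^ 2 * h2)
        exact habs (this ▸ hp)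
      · have : r = 1 := eq_of_sq h2 (by linear_combination h4 - h' - h2)
        rw [this] at hr; apply hone; linear_combination hr - h2

end Two

section Seven

/-- A proper colouring, in four colours, of the unit-distance graph on the plane over the field
with seven elements. -/
def table : Fin 7 → Fin 7 → Fin 4 :=
  ![![0, 1, 0, 1, 2, 3, 2],
    ![1, 2, 3, 2, 0, 1, 0],
    ![2, 0, 1, 0, 1, 2, 3],
    ![0, 1, 2, 3, 2, 0, 1],
    ![3, 2, 0, 1, 0, 1, 2],
    ![1, 0, 1, 2, 3, 2, 0],
    ![2, 3, 2, 0, 1, 0, 1]]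

lemma table_spec : ∀ x y x' y' : ZMod 7, (x - x') ^ 2 + (y - y') ^ 2 = 1 → table x y ≠ table x' y' := by
  unfold ZMod
  decide +kernel

lemma four_card_seven {κ : Type*} [Field κ] [Fintype κ] (hq : Fintype.card κ = 7)
    (α β : κ) (hαβ : α ^ 2 + 1 = 4 * β) :
    ∃ c : κ → κ → Fin 4, ∀ u v u' v' : κ,
      (u - u') ^ 2 + α * (u - u') * (v - v') + β * (v - v') ^ 2 = 1 → c u v ≠ c u' v' := by
  have h7 : (7 : κ) = 0 := by
    have := FiniteField.cast_card_eq_zero κ
    rw [hq] at this
    exact_mod_cast this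
  let e : κ ≃+* ZMod 7 := (ZMod.ringEquivOfPrime κ (by norm_num) hq).symm
  refine ⟨fun u v => table (e (u + 4 * α * v)) (e (4 * v)), ?_⟩
  intro u v u' v' h
  apply table_spec
  rw [← map_sub, ← map_sub, ← map_pow, ← map_pow, ← map_add, ← map_one e]
  congr 1
  linear_combination h + (α * (u - u') * (v - v')) * h7 + 16 * (v - v') ^ 2 * hαβ + 9 * β * (v - v') ^ 2 * h7

end Seven

section Main

/-- The polynomial `t² + α t + β` has no root in `κ`. -/
def NoRoot {κ : Type} [Field κ] (α β : κ) : Prop :=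
  ∀ t : κ, t ^ 2 + α * t + β ≠ 0

/-- `a` and `b = (a² + 1) / 4` are in the valuation ring `W`, and `t² + a t + b` has no root in the
residue field of `W`; such `a`, `b` exist exactly when `K(i)/K` is unramified and inert at `W`. -/
def Inert {K : Type} [Field K] (W : ValuationSubring K) (a b : W) : Prop :=
  a ^ 2 + 1 = 4 * b ∧ NoRoot (residue W a) (residue W b)

/-- The field `K` has a place (a valuation ring `W` of `K`) whose residue field has `q` elements and
at which `K(i)/K` is unramified and inert. -/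
def HasInertPlace (K : Type) [Field K] (q : ℕ) : Prop :=
  ∃ W : ValuationSubring K, ∃ a b : W, Inert W a b ∧ Nat.card (ResidueField W) = q

lemma two_eq_zero {κ : Type*} [Field κ] [Fintype κ] {q k : ℕ} (hk : q = 2 ^ k)
    (hq : Fintype.card κ = q) : (2 : κ) = 0 := by
  have h := FiniteField.cast_card_eq_zero κ
  rw [hq, hk] at h
  push_cast at h
  exact (pow_eq_zero_iff (n := k) (by rintro rfl; simp at h)).mp h

lemma colorable_four_of_char_two (F : IntermediateField ℚ ℝ) (W : ValuationSubring F) (a b : W)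
    (hab : a ^ 2 + 1 = 4 * b)
    (hirr : ∀ t : ResidueField W, t ^ 2 + residue W a * t + residue W b ≠ 0)
    (h2 : (2 : ResidueField W) = 0)
    (h : (∀ t : ResidueField W, t ^ 2 + t + residue W b ≠ 0) →
      ∃ c : ResidueField W → ResidueField W → Bool × Bool, ∀ u v u' v' : ResidueField W,
      (u - u') ^ 2 + (u - u') * (v - v') + residue W b * (v - v') ^ 2 = 1 → c u v ≠ c u' v') :
    (unitDistGraph F).Colorable 4 := by
  have hα : residue W a = 1 := by
    apply eq_of_sq h2
    have h1 := congrArg (residue W) hab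
    simp only [map_add, map_pow, map_mul, map_one, map_ofNat] at h1
    linear_combination h1 + (2 * residue W b - 1) * h2
  rw [hα] at hirr
  simp only [one_mul] at hirr
  obtain ⟨c, hc⟩ := h hirr
  have := colorable_of_residue F W a b hab (by rw [hα]; simpa using hirr) c (by
    rw [hα]
    intro u v u' v' h
    exact hc u v u' v' (by linear_combination h))
  simpa using this

lemma colorable_four (F : IntermediateField ℚ ℝ) {q : ℕ} (hq : q ∈ ({2, 4, 7, 8} : Finset ℕ))
    (h : HasInertPlace F q) : (unitDistGraph F).Colorable 4 := by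
  classical
  obtain ⟨W, a, b, ⟨hab, hirr⟩, hcard⟩ := h
  have hirr : ∀ t : ResidueField W, t ^ 2 + residue W a * t + residue W b ≠ 0 := hirr
  have hpos : 0 < q := by
    simp only [Finset.mem_insert, Finset.mem_singleton] at hq
    omega
  have hfin : Finite (ResidueField W) := Nat.finite_of_card_ne_zero (by omega)
  have : Fintype (ResidueField W) := Fintype.ofFinite _
  rw [Nat.card_eq_fintype_card] at hcard
  simp only [Finset.mem_insert, Finset.mem_singleton] at hq
  rcases hq with rfl | rfl | rfl | rfl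
  · have h2 := two_eq_zero (k := 1) (by norm_num) hcard
    exact colorable_four_of_char_two F W a b hab hirr h2 (four_card_two hcard h2 _)
  · have h2 := two_eq_zero (k := 2) (by norm_num) hcard
    exact colorable_four_of_char_two F W a b hab hirr h2 (four_card_four hcard h2 _)
  · obtain ⟨c, hc⟩ := four_card_seven hcard (residue W a) (residue W b) (by
      have h1 := congrArg (residue W) hab
      simpa only [map_add, map_pow, map_mul, map_one, map_ofNat] using h1)
    have := colorable_of_residue F W a b hab hirr c hc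
    simpa using this
  · have h2 := two_eq_zero (k := 3) (by norm_num) hcard
    exact colorable_four_of_char_two F W a b hab hirr h2 (four_card_eight hcard h2 _)

lemma hasInertPlace_of_sqrt_three (F : IntermediateField ℚ ℝ) (t3 : F) (h3 : t3 ^ 2 = 3)
    (W : ValuationSubring F) {q : ℕ} (hq : q = 2 ∨ q = 8) (hcard : Nat.card (ResidueField W) = q) :
    HasInertPlace F q := by
  have ht3 : t3 ∈ W := by
    apply mem_of_sq_mem
    have : t3 * t3 = ((3 : ℕ) : F) := by push_cast; linear_combination h3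
    rw [this]
    exact natCast_mem _ _
  have hfin : Finite (ResidueField W) := Nat.finite_of_card_ne_zero (by omega)
  have : Fintype (ResidueField W) := Fintype.ofFinite _
  have hcard' : Fintype.card (ResidueField W) = q := by rw [← Nat.card_eq_fintype_card]; exact hcard
  have h2 : (2 : ResidueField W) = 0 := by
    rcases hq with rfl | rfl
    · exact two_eq_zero (k := 1) (by norm_num) hcard'
    · exact two_eq_zero (k := 3) (by norm_num) hcard'
  have hx : ∀ x : ResidueField W, x ^ 8 = x := by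
    intro x
    have hp := FiniteField.pow_card x
    rw [hcard'] at hp
    rcases hq with rfl | rfl
    · calc x ^ 8 = ((x ^ 2) ^ 2) ^ 2 := by ring
        _ = x := by rw [hp, hp, hp]
    · exact hp
  have hsq : (⟨t3, ht3⟩ : W) ^ 2 = 3 := by
    apply Subtype.ext
    exact h3
  have hα : residue W ⟨t3, ht3⟩ = 1 := by
    apply eq_of_sq h2
    rw [← map_pow, hsq, map_ofNat]
    linear_combination h2
  refine ⟨W, ⟨t3, ht3⟩, 1, ⟨by rw [hsq]; norm_num, ?_⟩, hcard⟩
  intro t ht
  rw [hα, map_one, one_mul] at ht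
  have h3' : t ^ 3 = 1 := by linear_combination (t - 1) * ht
  have h4 : t ^ 2 = t := by
    calc t ^ 2 = t ^ 8 := by rw [show t ^ 8 = t ^ 3 * t ^ 3 * t ^ 2 by ring, h3']; ring
      _ = t := hx t
  have h5 : t = 0 ∨ t = 1 := by
    have : t * (t - 1) = 0 := by linear_combination h4
    rcases mul_eq_zero.mp this with h | h
    · exact Or.inl h
    · exact Or.inr (sub_eq_zero.mp h)
  rcases h5 with h | h
  · rw [h] at h3'; simp at h3'
  · rw [h] at ht
    apply one_ne_zero (α := ResidueField W)
    linear_combination ht - h2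

lemma not_colorable_three (F : IntermediateField ℚ ℝ) (t3 t11 : F) (e3 : t3 ^ 2 = 3)
    (e11 : t11 ^ 2 = 11) : ¬ (unitDistGraph F).Colorable 3 := by
  rintro ⟨C⟩
  have hadj : ∀ x y x' y' : F, (x - x') ^ 2 + (y - y') ^ 2 = 1 →
      C (x, y) ≠ C (x', y') := fun x y x' y' h => C.valid (show (unitDistGraph F).Adj _ _ from h)
  have hAB := hadj 0 0 (t3 / 2) (1 / 2) (by
    linear_combination (1 / 4) * e3)
  have hAB2 := hadj 0 0 (t3 / 2) (-(1 / 2)) (by
    linear_combination (1 / 4) * e3)
  have hBB2 := hadj (t3 / 2) (1 / 2) (t3 / 2) (-(1 / 2)) (by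
    ring)
  have hBD := hadj (t3 / 2) (1 / 2) t3 0 (by
    linear_combination (1 / 4) * e3)
  have hB2D := hadj (t3 / 2) (-(1 / 2)) t3 0 (by
    linear_combination (1 / 4) * e3)
  have hAF := hadj 0 0 (5 * t3 / 12 - t11 / 12) (t3 * t11 / 12 + 5 / 12) (by
    linear_combination (25 / 144 + t11 ^ 2 / 144) * e3 + (1 / 144 + 3 / 144) * e11)
  have hAF2 := hadj 0 0 (5 * t3 / 12 + t11 / 12) (t3 * t11 / 12 - 5 / 12) (by
    linear_combination (25 / 144 + t11 ^ 2 / 144) * e3 + (1 / 144 + 3 / 144) * e11)
  have hFF2 := hadj (5 * t3 / 12 - t11 / 12) (t3 * t11 / 12 + 5 / 12)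
      (5 * t3 / 12 + t11 / 12) (t3 * t11 / 12 - 5 / 12) (by
    linear_combination (1 / 36) * e11)
  have hFE := hadj (5 * t3 / 12 - t11 / 12) (t3 * t11 / 12 + 5 / 12) (5 * t3 / 6) (t3 * t11 / 6) (by
    linear_combination (25 / 144 + t11 ^ 2 / 144) * e3 + (1 / 144 + 3 / 144) * e11)
  have hF2E := hadj (5 * t3 / 12 + t11 / 12) (t3 * t11 / 12 - 5 / 12) (5 * t3 / 6) (t3 * t11 / 6) (by
    linear_combination (25 / 144 + t11 ^ 2 / 144) * e3 + (1 / 144 + 3 / 144) * e11)
  have hDE := hadj t3 0 (5 * t3 / 6) (t3 * t11 / 6) (by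
    linear_combination (1 / 36 + t11 ^ 2 / 36) * e3 + (3 / 36) * e11)
  generalize C (0, 0) = cA at *
  generalize C (t3 / 2, 1 / 2) = cB at *
  generalize C (t3 / 2, -(1 / 2)) = cB2 at *
  generalize C (t3, 0) = cD at *
  generalize C (5 * t3 / 12 - t11 / 12, t3 * t11 / 12 + 5 / 12) = cF at *
  generalize C (5 * t3 / 12 + t11 / 12, t3 * t11 / 12 - 5 / 12) = cF2 at *
  generalize C (5 * t3 / 6, t3 * t11 / 6) = cE at *
  omega

lemma four_le_of_not {V : Type*} (G : SimpleGraph V) (h : ¬ G.Colorable 3) : 4 ≤ G.chromaticNumber := by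
  by_contra hlt
  rw [not_le] at hlt
  apply h
  rw [← SimpleGraph.chromaticNumber_le_iff_colorable]
  rw [show (4 : ℕ∞) = 3 + 1 by norm_num] at hlt
  exact_mod_cast Order.le_of_lt_add_one hlt

end Main

end Pool.Agent.H923_Alg
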