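import Mathlib
import Pool.Agent.H923_Alg.Data

/-!
Checking the search tree.
-/

set_option autoImplicit false
set_option maxRecDepth 100000

namespace Pool.Agent.H923_Alg

/-- One step of the search: the point `x` gets each colour that no coloured neighbour has. -/
def step (st : List (ℕ × ℕ × ℕ)) (x : ℕ) : List (ℕ × ℕ × ℕ) :=
  match st with
  | [] => []
  | g :: st =>
    let A := nbr.getD x 0
    let s2 := bif Nat.beq (A &&& g.2.2) 0 then (g.1, g.2.1, g.2.2 ||| 2 ^ x) :: st else st
    let s1 := bif Nat.beq (A &&& g.2.1) 0 then (g.1, g.2.1 ||| 2 ^ x, g.2.2) :: s2 else s2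
    bif Nat.beq (A &&& g.1) 0 then (g.1 ||| 2 ^ x, g.2.1, g.2.2) :: s1 else s1

/-- The colouring `col` extends the partial colouring `g`. -/
def Sat (col : ℕ → Fin 3) (g : ℕ × ℕ × ℕ) : Prop :=
  (∀ i, g.1.testBit i = true → col i = 0) ∧ (∀ i, g.2.1.testBit i = true → col i = 1) ∧
    (∀ i, g.2.2.testBit i = true → col i = 2)

lemma exists_bit {m : ℕ} (h : m ≠ 0) : ∃ i, m.testBit i = true := by
  by_contra hc
  push Not at hc
  apply h
  apply Nat.eq_of_testBit_eq
  intro i
  have := hc i
  simpa using this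

lemma closed_of {col : ℕ → Fin 3} (hcol : ∀ x y, (nbr.getD x 0).testBit y = true → col x ≠ col y)
    {x m : ℕ} {k : Fin 3} (hm : ∀ i, m.testBit i = true → col i = k) (hx : col x = k) :
    Nat.beq (nbr.getD x 0 &&& m) 0 = true := by
  by_contra h
  have h' : nbr.getD x 0 &&& m ≠ 0 := by
    intro h0
    rw [h0] at h
    exact h rfl
  obtain ⟨y, hy⟩ := exists_bit h'
  rw [Nat.testBit_land, Bool.and_eq_true] at hy
  exact hcol x y hy.1 (by rw [hx, hm y hy.2])

lemma sat_or {col : ℕ → Fin 3} {m x : ℕ} {k : Fin 3} (hm : ∀ i, m.testBit i = true → col i = k)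
    (hx : col x = k) : ∀ i, (m ||| 2 ^ x).testBit i = true → col i = k := by
  intro i hi
  rw [Nat.testBit_lor, Bool.or_eq_true] at hi
  rcases hi with hi | hi
  · exact hm i hi
  · rw [Nat.testBit_two_pow] at hi
    have : x = i := by simpa using hi
    rw [← this]; exact hx

lemma step_sat {col : ℕ → Fin 3} (hcol : ∀ x y, (nbr.getD x 0).testBit y = true → col x ≠ col y)
    (st : List (ℕ × ℕ × ℕ)) (x : ℕ) (h : ∃ g ∈ st, Sat col g) : ∃ g ∈ step st x, Sat col g := by
  obtain ⟨g, hg, hs⟩ := h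
  cases st with
  | nil => simp at hg
  | cons g0 st =>
    obtain ⟨m0, m1, m2⟩ := g0
    rw [List.mem_cons] at hg
    unfold step
    simp only
    rcases hg with rfl | hg
    · obtain ⟨h0, h1, h2⟩ := hs
      simp only at h0 h1 h2
      have h3 : col x = 0 ∨ col x = 1 ∨ col x = 2 := by
        generalize col x = k
        revert k; decide
      rcases h3 with hx | hx | hx
      · have hc := closed_of hcol h0 hx
        rw [hc]
        exact ⟨(m0 ||| 2 ^ x, m1, m2), by simp, sat_or h0 hx, h1, h2⟩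
      · have hc := closed_of hcol h1 hx
        rw [hc]
        refine ⟨(m0, m1 ||| 2 ^ x, m2), ?_, h0, sat_or h1 hx, h2⟩
        cases Nat.beq (nbr.getD x 0 &&& m0) 0 <;> simp
      · have hc := closed_of hcol h2 hx
        rw [hc]
        refine ⟨(m0, m1, m2 ||| 2 ^ x), ?_, h0, h1, sat_or h2 hx⟩
        cases Nat.beq (nbr.getD x 0 &&& m0) 0 <;> cases Nat.beq (nbr.getD x 0 &&& m1) 0 <;> simp
    · refine ⟨g, ?_, hs⟩
      cases Nat.beq (nbr.getD x 0 &&& m0) 0 <;> cases Nat.beq (nbr.getD x 0 &&& m1) 0 <;>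
        cases Nat.beq (nbr.getD x 0 &&& m2) 0 <;> simp [hg]

lemma foldl_sat {col : ℕ → Fin 3} (hcol : ∀ x y, (nbr.getD x 0).testBit y = true → col x ≠ col y)
    (l : List ℕ) (st : List (ℕ × ℕ × ℕ)) (h : ∃ g ∈ st, Sat col g) :
    ∃ g ∈ l.foldl step st, Sat col g := by
  induction l generalizing st with
  | nil => exact h
  | cons x l ih => exact ih _ (step_sat hcol st x h)

/-- The whole search tree. -/
def tree : List ℕ := tree0 ++ (tree1 ++ (tree2 ++ (tree3 ++ (tree4 ++ (tree5 ++ (tree6 ++ (tree7 ++ tree8)))))))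

/-- The search started with point `238` in colour `0` and point `239` in colour `1` ends without an
open case. -/
lemma search_empty : (tree.foldl step [(2 ^ 238, 2 ^ 239, 0)]).isEmpty = true := by
  decide +kernel

/-- Two points given by ten times their coordinates are at distance one. -/
def unitOk (p q : ℤ × ℤ × ℤ × ℤ) : Bool :=
  decide ((p.1 - q.1) ^ 2 + (p.2.1 - q.2.1) ^ 2
      + 11 * ((p.2.2.1 - q.2.2.1) ^ 2 + (p.2.2.2 - q.2.2.2) ^ 2) = 100 ∧
    (p.1 - q.1) * (p.2.2.1 - q.2.2.1) + (p.2.1 - q.2.1) * (p.2.2.2 - q.2.2.2) = 0)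

lemma nbr_ok : ((List.range 240).all fun i => decide (nbr.getD i 0 < 2 ^ 240) &&
    ((List.range 240).all fun j => !(nbr.getD i 0).testBit j ||
      unitOk (pts.getD i (0, 0, 0, 0)) (pts.getD j (0, 0, 0, 0)))) = true := by
  decide +kernel

lemma nbr_length : nbr.length = 240 := by decide +kernel

lemma nbr_spec (x y : ℕ) (h : (nbr.getD x 0).testBit y = true) :
    unitOk (pts.getD x (0, 0, 0, 0)) (pts.getD y (0, 0, 0, 0)) = true := by
  have hx : x < 240 := by
    by_contra hx
    have : nbr.getD x 0 = 0 := by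
      rw [List.getD_eq_default]
      rw [nbr_length]; omega
    rw [this] at h
    simp at h
  have h1 := List.all_eq_true.mp nbr_ok x (List.mem_range.mpr hx)
  rw [Bool.and_eq_true] at h1
  have h2 := of_decide_eq_true h1.1
  have hy : y < 240 := by
    by_contra hy
    have : nbr.getD x 0 < 2 ^ y := lt_of_lt_of_le h2 (Nat.pow_le_pow_right (by norm_num) (by omega))
    rw [Nat.testBit_lt_two_pow this] at h
    exact Bool.false_ne_true h
  have h3 := List.all_eq_true.mp h1.2 y (List.mem_range.mpr hy)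
  rw [h] at h3
  simpa using h3

end Pool.Agent.H923_Alg
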